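import Pool.Agent.FHQ.StmtsP

/-!
# Squad FHQ, row QE2: the quantifier over the roots of a polynomial, for one field
-/

open scoped BigOperators

noncomputable section

namespace Pool.Agent.FHQ.H55

open Polynomial

section

variable {p : ℕ}

lemma sp_zero {D : ℕ} {a : Fin D → ZMod p} (h : ∀ k, a k = 0) (s : Fin D → ℤ) (g : ℤ)
    (z : ZMod p) : Sp a s g z = 0 := by
  unfold Sp
  apply Finset.sum_eq_zero
  intro k _
  rw [if_neg]
  intro hA
  exact hA.1 (h k)

lemma mu_zero {D : ℕ} {a : Fin D → ZMod p} (h : ∀ k, a k = 0) (s : Fin D → ℤ) (g : ℤ) :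
    Mu a s g = 0 := by
  unfold Mu
  rw [dif_neg]
  rintro ⟨k, hA⟩
  exact hA.1 (h k)

end

lemma taylor_zero_of {p : ℕ} {K : Type} [Field K] (A : AcF0 p K) {D : ℕ} {W : K[X]} (c : K)
    (hW : W.natDegree < D) (h : ∀ k : Fin D, A.ac ((taylor c W).coeff k) = 0) : W = 0 := by
  have h1 : taylor c W = 0 := by
    ext k
    rw [coeff_zero]
    by_cases hk : k < D
    · exact (A.ac_zero _).1 (h ⟨k, hk⟩)
    · apply coeff_eq_zero_of_natDegree_lt
      rw [natDegree_taylor]
      omega
  exact (taylor_injective c) (by rw [h1, map_zero])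

/-- the value of a polynomial at `t + c` -/
lemma val (hEXP : ExpStmt) {p : ℕ} [Fact p.Prime] {K : Type} [Field K] (A : AcF0 p K) {D : ℕ}
    {W : K[X]} (c t : K) (ht : t ≠ 0) (hW : W.natDegree < D)
    (h : (∀ k : Fin D, A.ac ((taylor c W).coeff k) = 0) ∨
      Sp (A.cac D (taylor c W)) (A.cv D (taylor c W)) (A.v t) (A.ac t) ≠ 0) :
    A.ac (W.eval (t + c)) = Sp (A.cac D (taylor c W)) (A.cv D (taylor c W)) (A.v t) (A.ac t) ∧
    A.v (W.eval (t + c)) = Mu (A.cac D (taylor c W)) (A.cv D (taylor c W)) (A.v t) := by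
  rcases h with h | h
  · have h0 : W = 0 := taylor_zero_of A c hW h
    rw [sp_zero (a := A.cac D (taylor c W)) h, mu_zero (a := A.cac D (taylor c W)) h, h0, eval_zero]
    exact ⟨(A.ac_zero 0).2 rfl, A.v_zero⟩
  · have h0 : taylor c W ≠ 0 := by
      intro h1
      apply h
      apply sp_zero
      intro k
      show A.ac ((taylor c W).coeff k) = 0
      rw [h1, coeff_zero]
      exact (A.ac_zero 0).2 rfl
    have h1 := (hEXP p K A (taylor c W) D h0 (by rw [natDegree_taylor]; exact hW) t ht).1 h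
    rw [taylor_eval] at h1
    exact h1.2

lemma natcast_res (hRES : ResStmt) {p : ℕ} [Fact p.Prime] {K : Type} [Field K] (A : AcF0 p K)
    (n : ℕ) : A.Int (n : K) ∧ A.res (n : K) = (n : ZMod p) := by
  obtain ⟨h1, h2, -, -, h3, -, -, -⟩ := hRES p K A
  have hI1 : A.Int (1 : K) := Or.inr (by rw [h2])
  have hr1 : A.res (1 : K) = 1 := by
    unfold AcF0.res
    rw [if_pos ⟨one_ne_zero, h2⟩, h1]
  induction n with
  | zero =>
    refine ⟨Or.inl (by norm_num), ?_⟩
    unfold AcF0.res
    rw [if_neg]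
    · norm_num
    · rintro ⟨h, -⟩
      exact h (by norm_num)
  | succ n ih =>
    have h4 := h3 (n : K) 1 ih.1 hI1
    rw [Nat.cast_succ, Nat.cast_succ]
    exact ⟨h4.1, by rw [h4.2.1, ih.2, hr1]⟩

lemma natcast_ne (hRES : ResStmt) {p : ℕ} [hp : Fact p.Prime] {K : Type} [Field K] (A : AcF0 p K)
    (n : ℕ) (hn : ¬ p ∣ n) : (n : K) ≠ 0 := by
  intro h0
  have h1 := (natcast_res hRES A n).2
  rw [h0] at h1
  have h2 : A.res (0 : K) = 0 := by
    unfold AcF0.res
    rw [if_neg]
    rintro ⟨h, -⟩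
    exact h rfl
  rw [h2] at h1
  exact hn ((ZMod.natCast_eq_zero_iff n p).1 h1.symm)

lemma exists_root (hRES : ResStmt) {p : ℕ} [hp : Fact p.Prime] {K : Type} [Field K] (A : AcF0 p K)
    {D : ℕ} (hD : D ≤ p) (G : K[X]) (h2 : 2 ≤ G.natDegree) (hG : G.natDegree < D) :
    ∃ s : ℕ, derivative^[s] (derivative G) ≠ 0 ∧ ∃ c : K,
      (derivative^[s] (derivative G)).eval c = 0 := by
  set d := G.natDegree with hd
  refine ⟨d - 2, ?_⟩
  have e1 : derivative^[d - 2] (derivative G) = derivative^[d - 1] G := by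
    have h3 : d - 1 = (d - 2) + 1 := by omega
    rw [h3, Function.iterate_succ_apply]
  rw [e1]
  have hc : (derivative^[d - 1] G).coeff 1 ≠ 0 := by
    rw [coeff_iterate_derivative]
    have h3 : 1 + (d - 1) = d := by omega
    rw [h3, nsmul_eq_mul]
    apply mul_ne_zero
    · apply natcast_ne hRES A
      intro hdv
      have h4 : d.descFactorial (d - 1) ∣ d.factorial := by
        have h5 := Nat.factorial_mul_descFactorial (n := d) (k := d - 1) (by omega)
        exact ⟨_, by rw [← h5, mul_comm]⟩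
      have h6 := (Nat.Prime.dvd_factorial hp.out).1 (hdv.trans h4)
      omega
    · rw [hd, coeff_natDegree, Ne, leadingCoeff_eq_zero]
      intro h0
      rw [h0, natDegree_zero] at hd
      omega
  have hne : derivative^[d - 1] G ≠ 0 := by
    intro h0
    rw [h0, coeff_zero] at hc
    exact hc rfl
  refine ⟨hne, ?_⟩
  have hdeg : (derivative^[d - 1] G).degree = 1 := by
    apply le_antisymm
    · have h3 := natDegree_iterate_derivative G (d - 1)
      have h4 : (derivative^[d - 1] G).natDegree ≤ 1 := by omega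
      exact natDegree_le_iff_degree_le.1 h4
    · exact le_degree_of_ne_zero hc
  obtain ⟨c, hc⟩ := exists_root_of_degree_eq_one hdeg
  exact ⟨c, hc⟩

lemma lt_of_iter {K : Type} [Field K] {w : K[X]} {D s : ℕ} (hw : w.natDegree < D)
    (h : derivative^[s] w ≠ 0) : s < D := by
  by_contra hc
  exact h (iterate_derivative_eq_zero (by omega))

theorem qe2 (hNEA : NeaStmt) (hEXP : ExpStmt) (hHEN : HenStmt) (hRES : ResStmt) : Qe2Stmt := by
  intro p hp K _ A r D h e hD hdeg he C hC
  have he0 : h e ≠ 0 := by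
    intro h0
    rw [h0, natDegree_zero] at he
    omega
  have hdd : (derivative (h e)).natDegree < D :=
    (natDegree_derivative_le (h e)).trans_lt (by have := hdeg e; omega)
  constructor
  · rintro ⟨x, hx, hCx⟩
    set H : Set K[X] := insert (derivative (h e)) (h '' {l | l ≠ e}) with hH
    have hHfin : H.Finite := ((Set.toFinite _).image h).insert _
    have hHdeg : ∀ w ∈ H, w.natDegree < D := by
      intro w hw
      rcases hw with hw | ⟨l, -, hw⟩
      · rw [hw]; exact hdd
      · rw [← hw]; exact hdeg l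
    by_cases hxR : x ∈ Rts H
    · obtain ⟨w, hw, s, hs, hsx⟩ := hxR
      exact ⟨w, hw, s, lt_of_iter (hHdeg w hw) hs, hs, x, hsx, Or.inl ⟨hx, hCx⟩⟩
    obtain ⟨n1, n2, n3⟩ := hNEA p K A D H hD hHfin hHdeg
    have hne : (Rts H).Nonempty := by
      obtain ⟨s, hs, c, hc⟩ := exists_root hRES A.toAcF0 hD (h e) he (hdeg e)
      exact ⟨c, derivative (h e), Or.inl rfl, s, hs, hc⟩
    obtain ⟨c, hcR, hcm⟩ := n2 x hxR hne
    have hxc : x - c ≠ 0 := by
      intro h0
      rw [sub_eq_zero] at h0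
      exact hxR (h0 ▸ hcR)
    obtain ⟨w, hw, s, hs, hsc⟩ := id hcR
    refine ⟨w, hw, s, lt_of_iter (hHdeg w hw) hs, hs, c, hsc, Or.inr ?_⟩
    have hl : ∀ l, l ≠ e → (∀ k : Fin D, A.ac ((taylor c (h l)).coeff k) = 0) ∨
        Sp (A.cac D (taylor c (h l))) (A.cv D (taylor c (h l))) (A.v (x - c)) (A.ac (x - c)) ≠ 0 := by
      intro l hle
      by_cases h0 : h l = 0
      · left
        intro k
        rw [h0, map_zero, coeff_zero]
        exact (A.ac_zero 0).2 rfl
      · right
        exact n1 x c hxR hcR hcm (h l) (Or.inr ⟨l, hle, rfl⟩) h0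
    refine ⟨A.ac (x - c), A.v (x - c), ?_, ?_, ?_, ?_⟩
    · intro h0
      exact hxc ((A.ac_zero _).1 h0)
    · intro l hle
      rw [Finset.mem_singleton] at hle
      rw [hle]
      exact n3 (h e) (Or.inl rfl) he0 (hdeg e) x c hx hxR hcR hcm
    · intro l hle
      rw [Finset.mem_singleton] at hle
      exact hl l hle
    · refine (hC _ _ _ _ ?_).1 hCx
      intro l hle
      have h1 := val hEXP A.toAcF0 c (x - c) hxc (hdeg l) (hl l hle)
      rw [sub_add_cancel] at h1
      exact h1
  · rintro ⟨w, -, s, -, -, c, -, hc | hc⟩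
    · exact ⟨c, hc⟩
    · obtain ⟨z, g, hz, h1, h2, h3⟩ := hc
      have h4 := h1 e (Finset.mem_singleton_self e)
      have hW0 : taylor c (h e) ≠ 0 := by
        intro h0
        exact he0 ((taylor_injective c) (by rw [h0, map_zero]))
      obtain ⟨t, ht, hac, hv, hev⟩ := hHEN p K A (taylor c (h e)) D hW0
        (by rw [natDegree_taylor]; exact hdeg e) z g hz h4.1 h4.2
      rw [taylor_eval] at hev
      refine ⟨t + c, hev, ?_⟩
      refine (hC _ _ _ _ ?_).2 h3
      intro l hle
      have h5 := h2 l (by rw [Finset.mem_singleton]; exact hle)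
      have h6 : (∀ k : Fin D, A.ac ((taylor c (h l)).coeff k) = 0) ∨
          Sp (A.cac D (taylor c (h l))) (A.cv D (taylor c (h l))) (A.v t) (A.ac t) ≠ 0 := by
        rw [hac, hv]
        exact h5
      have h7 := val hEXP A.toAcF0 c t ht (hdeg l) h6
      rw [hac, hv] at h7
      exact h7

end Pool.Agent.FHQ.H55
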